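import Pool.Agent.Helper99.PG.Goals

/-!
PROJECT C2, packet PG-TREE.
-/

namespace Pool.Agent.Helper1.PG

open Pool.Agent.Helper99.PG

theorem tree : GoalTree := by
  intro hdeg hbij V _ _ H G hG κ W
  have h := hbij H G hG κ W
  unfold BG.K
  rw [← finsum_mem_eq_of_bijOn (f := fun A => LaurentPolynomial.T (cnt W A))
    (jof G κ W) h (fun A _ => by rw [hdeg])]
  exact finsum_mem_coe_finset _ _

end Pool.Agent.Helper1.PG
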